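import Pool.Agent.NTW.StmtsD

/-! NTW squad (MP_e54c4c_gt), row CNE: facts on the cone of directions (helper65). -/

set_option autoImplicit false

open Matrix Filter Topology

namespace Pool.Agent.NTW.H65

open Pool.Agent.PFS Pool.Agent.PFJ Pool.Agent.NTS Pool.Agent.NTW

/-- a leaf neighbour is not itself a leaf -/
theorem leaf_swap {K : ℕ} {c : Fin K → Fin K → ℕ} {τ : Fin K → Fin K} (hτ : Tau c τ)
    {j k l : Fin K} (h : Leaf c τ j k) (h' : Leaf c τ l j) : False := by
  have hk : k = l := by
    by_contra hne
    have h1 := h'.small k hne (Ne.symm h.ne)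
    have h2 := h.big
    omega
  subst hk
  obtain ⟨m, hmj, hmk, hm⟩ := hτ.sgl j k h.ne h.fj h.big
  rcases hm with hm | hm
  · have h1 := h'.small m hmk hmj
    omega
  · have h1 := h.small m hmj hmk
    omega

/-- CNE -/
theorem cne : CneStmt := by
  classical
  intro K c τ hτ hc
  refine ⟨?_, ?_, ?_, ?_⟩
  · intro b ρ a hb hρ hlim j k hjk l m
    have h1 : Tendsto (fun i => ρ i * b i l - ρ i * b i m) atTop (𝓝 (a l - a m)) :=
      (hlim l).sub (hlim m)
    have h2 : Tendsto (fun i => 2 * (ρ i * b i j - ρ i * b i k)) atTop (𝓝 (2 * (a j - a k))) :=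
      ((hlim j).sub (hlim k)).const_mul 2
    refine le_of_tendsto_of_tendsto' h1 h2 fun i => ?_
    have h3 := hb i j k hjk l m
    have h4 := mul_le_mul_of_nonneg_left h3 (hρ i).le
    nlinarith
  · intro b a hb j k hjk l m
    have := hb j k hjk l m
    simp only [add_sub_add_right_eq_sub]
    exact this
  · intro b ν j k hb hb0 hsum hjk hνj hνk hν
    have hpos : 0 < b j - b k := by
      by_contra hcon
      push Not at hcon
      apply hb0
      have hconst : ∀ l, b l = b j := by
        intro l
        have h1 := hb j k hjk l j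
        have h2 := hb j k hjk j l
        apply le_antisymm
        · linarith
        · linarith
      have hs : ∑ i, b i = (K : ℝ) * b j := by
        rw [Finset.sum_congr rfl fun i _ => hconst i, Finset.sum_const, Finset.card_univ,
          Fintype.card_fin, nsmul_eq_mul]
      rw [hsum] at hs
      have hK : (0 : ℝ) < (K : ℝ) := by
        have : 0 < K := lt_of_le_of_lt (Nat.zero_le _) j.2
        exact_mod_cast this
      have hbj : b j = 0 := by
        rcases mul_eq_zero.1 hs.symm with h | h
        · exact absurd h hK.ne'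
        · exact h
      funext l
      rw [hconst l, hbj]
      rfl
    have hs : ∑ i, ν i * b i = ν j * b j + ν k * b k := by
      refine Finset.sum_eq_add j k hjk.ne (fun i _ hi => ?_) (fun h => absurd (Finset.mem_univ _) h)
        (fun h => absurd (Finset.mem_univ _) h)
      rw [hν i hi.1 hi.2, zero_mul]
    rw [hs, hνk]
    have : ν j * b j + -ν j * b k = ν j * (b j - b k) := by ring
    rw [this]
    exact mul_pos hνj hpos
  · obtain ⟨a, ha⟩ : ∃ a : Fin K → ℝ, a = fun k => if ∃ j, Leaf c τ j k then (-1 : ℝ) else 0 :=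
      ⟨_, rfl⟩
    have ha1 : ∀ k, (∃ j, Leaf c τ j k) → a k = -1 := by
      intro k hk
      rw [ha]
      exact if_pos hk
    have ha0 : ∀ k, ¬ (∃ j, Leaf c τ j k) → a k = 0 := by
      intro k hk
      rw [ha]
      exact if_neg hk
    have hle : ∀ k, a k ≤ 0 := by
      intro k
      by_cases h : ∃ j, Leaf c τ j k
      · rw [ha1 k h]; norm_num
      · rw [ha0 k h]
    have hge : ∀ k, -1 ≤ a k := by
      intro k
      by_cases h : ∃ j, Leaf c τ j k
      · rw [ha1 k h]
      · rw [ha0 k h]; norm_num
    refine ⟨a, ?_, ?_⟩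
    · intro i
      by_cases h : τ i = i
      · rw [h]
      · rw [ha0 i, ha0 (τ i)]
        · rintro ⟨j, hj⟩
          have h1 := hj.fk
          rw [hτ.inv] at h1
          exact h h1.symm
        · rintro ⟨j, hj⟩
          exact h hj.fk
    · intro t
      obtain ⟨D, hD⟩ : ∃ D : ℝ, D = ∑ i, |t i| := ⟨_, rfl⟩
      have hDt : ∀ i, |t i| ≤ D := by
        intro i
        rw [hD]
        exact Finset.single_le_sum (f := fun i => |t i|) (fun b _ => abs_nonneg _)
          (Finset.mem_univ i)
      have hD0 : 0 ≤ D := by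
        rw [hD]
        exact Finset.sum_nonneg fun i _ => abs_nonneg _
      refine ⟨6 * D, fun s hs j k hjk l m => ?_⟩
      have hs0 : 0 ≤ s := by linarith
      have haj : a j = 0 := by
        apply ha0
        rintro ⟨l', hl'⟩
        exact leaf_swap hτ hjk hl'
      have hak : a k = -1 := ha1 k ⟨j, hjk⟩
      have h1 := abs_le.1 (hDt l)
      have h2 := abs_le.1 (hDt m)
      have h3 := abs_le.1 (hDt j)
      have h4 := abs_le.1 (hDt k)
      have h5 : s * a l ≤ 0 := by
        have := mul_le_mul_of_nonneg_left (hle l) hs0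
        linarith
      have h6 : -s ≤ s * a m := by
        have := mul_le_mul_of_nonneg_left (hge m) hs0
        linarith
      show s * a l + t l - (s * a m + t m) ≤ 2 * (s * a j + t j - (s * a k + t k))
      rw [haj, hak]
      linarith [h1.1, h1.2, h2.1, h2.2, h3.1, h3.2, h4.1, h4.2]

end Pool.Agent.NTW.H65
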