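import Pool.Agent.NTW.StmtsA

/-! NTW squad (MP_e54c4c_gt), row MVG: replacing the two vertices of a full pair box (helper65). -/

set_option autoImplicit false

open Matrix Filter Topology

namespace Pool.Agent.NTW.H65

open Pool.Agent.PFS Pool.Agent.PFJ Pool.Agent.NTS Pool.Agent.NTW

theorem sum_two {K : ℕ} {E : Type} [AddCommGroup E] (s : Finset (Fin K)) {i j : Fin K}
    (hi : i ∈ s) (hj : j ∈ s) (hij : i ≠ j) (v : Fin K → E) :
    ∑ l ∈ s, v l = v i + (v j + ∑ l ∈ (s.erase i).erase j, v l) := by
  rw [Finset.add_sum_erase (s.erase i) v (Finset.mem_erase.2 ⟨hij.symm, hj⟩),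
    Finset.add_sum_erase s v hi]

/-- the replaced family -/
noncomputable def rpl {n K : ℕ} (w : Fin K → V n) (i j : Fin K) (a b : V n) : Fin K → V n :=
  fun m => if m = i then a else if m = j then b else w m

theorem rpl_i {n K : ℕ} (w : Fin K → V n) (i j : Fin K) (a b : V n) : rpl w i j a b i = a := by
  unfold rpl; rw [if_pos rfl]

theorem rpl_j {n K : ℕ} (w : Fin K → V n) {i j : Fin K} (hij : i ≠ j) (a b : V n) :
    rpl w i j a b j = b := by
  unfold rpl; rw [if_neg hij.symm, if_pos rfl]

theorem rpl_o {n K : ℕ} (w : Fin K → V n) {i j m : Fin K} (hi : m ≠ i) (hj : m ≠ j) (a b : V n) :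
    rpl w i j a b m = w m := by
  unfold rpl; rw [if_neg hi, if_neg hj]

theorem sum_rpl {n K : ℕ} (w : Fin K → V n) {i j : Fin K} (hij : i ≠ j) (a b : V n)
    (s : Finset (Fin K)) (hi : i ∈ s) (hj : j ∈ s) :
    ∑ l ∈ s, rpl w i j a b l = a + (b + ∑ l ∈ (s.erase i).erase j, w l) := by
  rw [sum_two s hi hj hij, rpl_i, rpl_j w hij]
  congr 2
  refine Finset.sum_congr rfl fun l hl => ?_
  have h1 := (Finset.mem_erase.1 hl).1
  have h2 := (Finset.mem_erase.1 (Finset.mem_erase.1 hl).2).1
  exact rpl_o w h2 h1 a b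

/-- MVG -/
theorem mvg (hFCS : FcsStmt) (hPBF : PbfStmt) (hBXT : BxtStmt) : MvgStmt := by
  intro n C Γ hC K hK hmax w hw i j hij hPB hdim a haF b hbF hac hbc hind hau hbu
  have hP : PCone C := hC.toPCone
  have hwcl : ∀ m, w m ∈ closure C := fun m => PES.cl hw.1 m
  obtain ⟨F, hFdef⟩ : ∃ F : Submodule ℝ (V n), F = Fs C (w i) (w j) := ⟨_, rfl⟩
  rw [← hFdef] at hPB hdim haF hbF hau hbu ⊢
  have hpb := (hPBF n C hP K w hw.1 i j hij).1 F hPB
  have hf : Unt C F (w i + w j) := hpb.1
  have hbox3 := hpb.2.2.1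
  have hab : Unt C F (a + b) :=
    hBXT n C Γ hC K hK hmax w hw i j hij F hPB hdim a haF b hbF hac hbc hind
  have hfcl : w i + w j ∈ closure C := hf.2.1
  have hFs : Fs C a b = F := by
    have h5 := (hFCS n C hP (w i + w j) hfcl).2.2.2.2 (a + b)
    rw [hFdef] at hab ⊢
    exact h5 hab
  -- sums
  have hS : ∑ l, w l = (w i + w j) + rst w i j := by
    rw [sum_two Finset.univ (Finset.mem_univ i) (Finset.mem_univ j) hij w]
    unfold rst
    rw [add_assoc]
  have hSC : (w i + w j) + rst w i j ∈ C := by
    rw [← hS]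
    have h1 := hw.1.pos (fun _ => 1) (fun _ => one_pos)
    simp only [one_smul] at h1
    exact h1
  have hRcl : rst w i j ∈ closure C := hP.cl_sum fun m _ => hwcl m
  have hbd : ∀ m, ∑ l ∈ Finset.univ.erase m, w l ∉ C := by
    intro m hcon
    apply hw.1.bd (fun l => if l = m then 0 else 1)
      (fun l => by by_cases h : l = m <;> simp [h]) ⟨m, if_pos rfl⟩
    have e : ∑ l, (if l = m then (0 : ℝ) else 1) • w l = ∑ l ∈ Finset.univ.erase m, w l := by
      rw [← Finset.add_sum_erase Finset.univ _ (Finset.mem_univ m), if_pos rfl, zero_smul,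
        zero_add]
      refine Finset.sum_congr rfl fun l hl => ?_
      rw [if_neg (Finset.mem_erase.1 hl).1, one_smul]
    rw [e]
    exact hcon
  -- a unit criterion
  have hunit : ∀ y ∈ F, y ∈ closure C → y + rst w i j ∈ C → Unt C F y := by
    intro y hyF hyc hyC
    refine ⟨hyF, hyc, fun z hz => ?_⟩
    obtain ⟨M, hM, hMz⟩ := hP.absorb hyC z
    refine ⟨M, hM, ?_⟩
    have e : M • (y + rst w i j) - z =
        (M • y - z) + ∑ m ∈ (Finset.univ.erase i).erase j, (fun _ : Fin K => M) m • w m := by
      unfold rst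
      rw [smul_add, Finset.smul_sum]
      abel
    rw [e] at hMz
    exact (hbox3 (M • y - z) (F.sub_mem (F.smul_mem _ hyF) hz) (fun _ => M)
      (subset_closure hMz)).1
  have hrplcl : ∀ m, rpl w i j a b m ∈ closure C := by
    intro m
    by_cases hmi : m = i
    · rw [hmi, rpl_i]; exact hac
    by_cases hmj : m = j
    · rw [hmj, rpl_j w hij]; exact hbc
    rw [rpl_o w hmi hmj]
    exact hwcl m
  have hpes : PES C (rpl w i j a b) := by
    refine Pool.Agent.PFS.H60.crt n C hP (Fin K) _ hrplcl ?_ ?_
    · -- the total sum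
      rw [sum_rpl w hij a b Finset.univ (Finset.mem_univ i) (Finset.mem_univ j)]
      show a + (b + rst w i j) ∈ C
      obtain ⟨M, hM, hMf⟩ := hab.2.2 (w i + w j) hf.1
      have hM' : 0 < M + 1 := by linarith
      rw [← hP.smul_iff hM']
      refine hP.mem_of_le hSC ?_
      have e : (M + 1) • (a + (b + rst w i j)) - ((w i + w j) + rst w i j) =
          (M • (a + b) - (w i + w j)) + ((a + b) + M • rst w i j) := by
        rw [add_smul, one_smul, smul_add, smul_add, smul_add]
        abel
      rw [e]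
      exact hP.cl_add hMf (hP.cl_add (hP.cl_add hac hbc) (hP.cl_smul hRcl hM.le))
    · intro m
      by_cases hmi : m = i
      · rw [hmi]
        intro hcon
        apply hbu
        apply hunit b hbF hbc
        have e : ∑ l ∈ Finset.univ.erase i, rpl w i j a b l = b + rst w i j := by
          have h1 := Finset.add_sum_erase Finset.univ (rpl w i j a b) (Finset.mem_univ i)
          rw [sum_rpl w hij a b Finset.univ (Finset.mem_univ i) (Finset.mem_univ j), rpl_i] at h1
          exact add_left_cancel h1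
        rw [e] at hcon
        exact hcon
      by_cases hmj : m = j
      · rw [hmj]
        intro hcon
        apply hau
        apply hunit a haF hac
        have e : ∑ l ∈ Finset.univ.erase j, rpl w i j a b l = a + rst w i j := by
          have h1 := Finset.add_sum_erase Finset.univ (rpl w i j a b) (Finset.mem_univ j)
          rw [sum_rpl w hij a b Finset.univ (Finset.mem_univ i) (Finset.mem_univ j),
            rpl_j w hij] at h1
          have h2 : b + ∑ l ∈ Finset.univ.erase j, rpl w i j a b l = b + (a + rst w i j) := by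
            rw [h1]
            unfold rst
            abel
          exact add_left_cancel h2
        rw [e] at hcon
        exact hcon
      intro hcon
      have hi' : i ∈ Finset.univ.erase m := Finset.mem_erase.2 ⟨fun h => hmi h.symm,
        Finset.mem_univ i⟩
      have hj' : j ∈ Finset.univ.erase m := Finset.mem_erase.2 ⟨fun h => hmj h.symm,
        Finset.mem_univ j⟩
      rw [sum_rpl w hij a b _ hi' hj'] at hcon
      obtain ⟨M, hM, hMf⟩ := hf.2.2 (a + b) hab.1
      have hM' : 0 < M + 1 := by linarith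
      apply hbd m
      rw [← hP.smul_iff hM']
      refine hP.mem_of_le hcon ?_
      rw [sum_two _ hi' hj' hij w]
      obtain ⟨R', hR'⟩ : ∃ R' : V n,
        R' = ∑ l ∈ ((Finset.univ.erase m).erase i).erase j, w l := ⟨_, rfl⟩
      have hR'cl : R' ∈ closure C := by
        rw [hR']
        exact hP.cl_sum fun l _ => hwcl l
      rw [← hR']
      have e : (M + 1) • (w i + (w j + R')) - (a + (b + R')) =
          (M • (w i + w j) - (a + b)) + ((w i + w j) + M • R') := by
        rw [add_smul, one_smul, smul_add, smul_add, smul_add]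
        abel
      rw [e]
      exact hP.cl_add hMf (hP.cl_add hfcl (hP.cl_smul hR'cl hM.le))
  -- the limit cone
  have hul := hC.hul
  have hfne : w i + w j ≠ 0 := by
    intro h0
    apply hul.lamNe _ (hw.2 i)
    apply hP.salient _ (hwcl i)
    have : -w i = w j := by
      rw [neg_eq_iff_add_eq_zero]
      exact h0
    rw [this]
    exact hwcl j
  obtain ⟨m, hmi, hmj⟩ : ∃ m : Fin K, m ≠ i ∧ m ≠ j := by
    by_contra hcon
    push Not at hcon
    have h1 : (Finset.univ : Finset (Fin K)) ⊆ {i, j} := by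
      intro m _
      rw [Finset.mem_insert, Finset.mem_singleton]
      by_cases h : m = i
      · exact Or.inl h
      · exact Or.inr (hcon m h)
    have h2 := Finset.card_le_card h1
    rw [Finset.card_univ, Fintype.card_fin] at h2
    have h3 : ({i, j} : Finset (Fin K)).card ≤ 2 := Finset.card_le_two
    omega
  have hfnC : w i + w j ∉ C := by
    intro hcon
    apply hbd m
    have hi' : i ∈ Finset.univ.erase m := Finset.mem_erase.2 ⟨fun h => hmi h.symm,
      Finset.mem_univ i⟩
    have hj' : j ∈ Finset.univ.erase m := Finset.mem_erase.2 ⟨fun h => hmj h.symm,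
      Finset.mem_univ j⟩
    rw [sum_two _ hi' hj' hij w, ← add_assoc]
    exact hP.add_cl hcon (hP.cl_sum fun l _ => hwcl l)
  have hfLam : w i + w j ∈ LamC C Γ :=
    Pool.Agent.PFS.H37.cloF n C Γ hC (fun _ => w i + w j) (w i + w j)
      (fun _ => hul.add _ (hul.lamHull _ (hw.2 i)) _ (hul.lamHull _ (hw.2 j)))
      tendsto_const_nhds hfnC hfne
  have hlam : ∀ y ∈ F, y ∈ closure C → y ≠ 0 → y ∈ LamC C Γ := by
    intro y hyF hyc hy0
    obtain ⟨M, hM, hMy⟩ := hf.2.2 y hyF
    exact Pool.Agent.PFS.H37.flmF n C Γ hC (M • (w i + w j)) (hul.lamSmul _ hfLam M hM) y hyc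
      hy0 hMy
  have ha0 : a ≠ 0 := by
    intro h0
    have := (hind 1 0 (by rw [h0, smul_zero, zero_smul, add_zero])).1
    exact one_ne_zero this
  have hb0 : b ≠ 0 := by
    intro h0
    have := (hind 0 1 (by rw [h0, smul_zero, zero_smul, add_zero])).2
    exact one_ne_zero this
  refine ⟨⟨hpes, fun m => ?_⟩, hFs⟩
  show rpl w i j a b m ∈ LamC C Γ
  by_cases hmi : m = i
  · rw [hmi, rpl_i]
    exact hlam a haF hac ha0
  by_cases hmj : m = j
  · rw [hmj, rpl_j w hij]
    exact hlam b hbF hbc hb0
  rw [rpl_o w hmi hmj]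
  exact hw.2 m

end Pool.Agent.NTW.H65
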