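import Pool.Agent.NTW.StmtsA

/-! NTW squad (MP_e54c4c_gt), row WLM: limits of the boxes (helper65). -/

set_option autoImplicit false

open Matrix Filter Topology

namespace Pool.Agent.NTW.H65

open Pool.Agent.PFS Pool.Agent.PFJ Pool.Agent.NTS Pool.Agent.NTW

/-- convergence of lines -/
theorem limS_line {n : ℕ} {y : ℕ → V n} {y0 : V n} (hy : Tendsto y atTop (𝓝 y0)) (h0 : y0 ≠ 0) :
    LimS (fun m => Submodule.span ℝ {y m}) (Submodule.span ℝ {y0}) := by
  refine ⟨?_, ?_⟩
  · intro x hx
    obtain ⟨r, hr⟩ := Submodule.mem_span_singleton.1 hx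
    refine ⟨fun m => r • y m, fun m => Submodule.smul_mem _ _ (Submodule.mem_span_singleton_self _), ?_⟩
    rw [← hr]
    exact hy.const_smul r
  · intro φ z x hφ hz hzx
    have hr : ∀ m, ∃ r : ℝ, r • y (φ m) = z m := fun m => Submodule.mem_span_singleton.1 (hz m)
    choose r hr using hr
    obtain ⟨j, hj⟩ : ∃ j, y0 j ≠ 0 := by
      by_contra hcon
      apply h0
      funext j
      by_contra hj
      exact hcon ⟨j, hj⟩
    have hyφ : Tendsto (fun m => y (φ m)) atTop (𝓝 y0) := hy.comp hφ.tendsto_atTop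
    have hyj : Tendsto (fun m => y (φ m) j) atTop (𝓝 (y0 j)) := (tendsto_pi_nhds.1 hyφ) j
    have hzj : Tendsto (fun m => z m j) atTop (𝓝 (x j)) := (tendsto_pi_nhds.1 hzx) j
    have hq : Tendsto (fun m => z m j / y (φ m) j) atTop (𝓝 (x j / y0 j)) := hzj.div hyj hj
    have hev : ∀ᶠ m in atTop, y (φ m) j ≠ 0 := hyj.eventually_ne hj
    have hre : (fun m => z m j / y (φ m) j) =ᶠ[atTop] r := by
      filter_upwards [hev] with m hm
      have : z m j = r m * y (φ m) j := by rw [← hr m]; rfl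
      rw [this, mul_div_assoc, div_self hm, mul_one]
    have hrl : Tendsto r atTop (𝓝 (x j / y0 j)) := hq.congr' hre
    have hl : Tendsto (fun m => r m • y (φ m)) atTop (𝓝 ((x j / y0 j) • y0)) := hrl.smul hyφ
    have hl2 : Tendsto (fun m => r m • y (φ m)) atTop (𝓝 x) := by
      refine hzx.congr fun m => ?_
      exact (hr m).symm
    have := tendsto_nhds_unique hl2 hl
    rw [this]
    exact Submodule.smul_mem _ _ (Submodule.mem_span_singleton_self _)

/-- WLM -/
theorem wlm (hTCL : TclStmt) (hDCP : DcpStmt) : WlmStmt := by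
  intro n C Γ K c τ D x w hx hlim hpes
  have hP : PCone C := D.toCC.toPCone
  obtain ⟨hw, φ, hφ, hpair⟩ := hTCL n C Γ K c τ D x w hx hlim hpes
  have hlim' : ∀ i, Tendsto (fun m => x (φ m) i) atTop (𝓝 (w i)) :=
    fun i => (hlim i).comp hφ.tendsto_atTop
  have hwne : ∀ i, w i ≠ 0 := fun i => D.toCC.hul.lamNe _ (hpes.2 i)
  have hLf : ∀ i, LimS (fun m => Lf C τ (x (φ m)) i) (Lf C τ w i) := by
    intro i
    by_cases h : τ i = i
    · have e1 : Lf C τ w i = Submodule.span ℝ {w i} := by unfold Lf; rw [if_pos h]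
      have e2 : (fun m => Lf C τ (x (φ m)) i) = fun m => Submodule.span ℝ {x (φ m) i} := by
        funext m
        unfold Lf
        rw [if_pos h]
      rw [e1, e2]
      exact limS_line (hlim' i) (hwne i)
    · have e1 : Lf C τ w i = Fs C (w i) (w (τ i)) := by unfold Lf; rw [if_neg h]
      have e2 : (fun m => Lf C τ (x (φ m)) i) = fun m => Fs C (x (φ m) i) (x (φ m) (τ i)) := by
        funext m
        unfold Lf
        rw [if_neg h]
      rw [e1, e2]
      exact hpair i (τ i) (Ne.symm h)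
  have Dw := hDCP n C Γ K c τ D w hw
  have Dx := fun m => hDCP n C Γ K c τ D (x m) (hx m)
  refine ⟨hw, φ, hφ, hLf, ?_, ?_⟩
  · -- first half
    intro z hz
    obtain ⟨y, hyL, hys⟩ := (Dw.2.2.2.2.2.1 z).1 hz
    have hch : ∀ i, ∃ yb : ℕ → V n, (∀ m, yb m ∈ Lf C τ (x (φ m)) i) ∧
        Tendsto yb atTop (𝓝 (y i)) := fun i => (hLf i).1 (y i) (hyL i)
    choose ym hymL hymlim using hch
    refine ⟨fun m => ∑ i, ym i m, fun m => ?_, ?_⟩
    · exact Submodule.sum_mem _ fun i _ => Submodule.mem_iSup_of_mem i (hymL i m)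
    · rw [← hys]
      exact tendsto_finsetSum _ fun i _ => hymlim i
  · -- second half
    intro φ' zm z hφ' hzm hzlim
    have hzm' : ∀ m, zm m ∈ Ws C τ (x (φ (φ' m))) := hzm
    have hdec : ∀ m, ∃ y : Fin K → V n, (∀ i, y i ∈ Lf C τ (x (φ (φ' m))) i) ∧
        ∑ i, y i = zm m := fun m => ((Dx (φ (φ' m))).2.2.2.2.2.1 (zm m)).1 (hzm' m)
    choose y hyL hysum using hdec
    obtain ⟨X, hX⟩ : ∃ X : ℕ → Fin K → V n, X = fun m => x (φ (φ' m)) := ⟨_, rfl⟩
    have hXlim : ∀ i, Tendsto (fun m => X m i) atTop (𝓝 (w i)) := by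
      intro i
      rw [hX]
      exact (hlim' i).comp hφ'.tendsto_atTop
    have DX : ∀ m, (∀ i, X m i ∈ Lf C τ (X m) i) ∧ (∀ i, Lf C τ (X m) (τ i) = Lf C τ (X m) i) ∧
        (∀ x : Fin K → V n, (∀ i, x i ∈ Lf C τ (X m) i) → ∑ i, x i ∈ closure C →
          ∀ i, x i + x (τ i) ∈ closure C) := by
      intro m
      rw [hX]
      exact ⟨(Dx (φ (φ' m))).1, (Dx (φ (φ' m))).2.1, (Dx (φ (φ' m))).2.2.2.1⟩
    have hyX : ∀ m i, y m i ∈ Lf C τ (X m) i := by
      intro m i
      rw [hX]
      exact hyL m i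
    -- p
    obtain ⟨p, hpdef⟩ : ∃ p : V n, p = ∑ i, w i := ⟨_, rfl⟩
    have hp : p ∈ C := by
      have h1 := hpes.1.pos (fun _ => 1) (fun _ => one_pos)
      simp only [one_smul] at h1
      rw [hpdef]
      exact h1
    have hXsum : Tendsto (fun m => ∑ i, X m i) atTop (𝓝 p) := by
      rw [hpdef]
      exact tendsto_finsetSum _ fun i _ => hXlim i
    obtain ⟨M1, hM1, hm1⟩ := hP.absorb hp z
    obtain ⟨M2, hM2, hm2⟩ := hP.absorb hp (-z)
    obtain ⟨M, hMdef⟩ : ∃ M : ℝ, M = M1 + M2 := ⟨_, rfl⟩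
    have hMpos : 0 < M := by rw [hMdef]; linarith
    have hA : M • p - z ∈ C := by
      have e : M • p - z = (M1 • p - z) + M2 • p := by
        rw [hMdef, add_smul]; abel
      rw [e]
      exact hP.add_cl hm1 (subset_closure (hP.smul _ hp _ hM2))
    have hB : M • p + z ∈ C := by
      have e : M • p + z = (M2 • p - -z) + M1 • p := by
        rw [hMdef, add_smul]; abel
      rw [e]
      exact hP.add_cl hm2 (subset_closure (hP.smul _ hp _ hM1))
    have evA := ((hXsum.const_smul M).sub hzlim).eventually (hP.isOpen.mem_nhds hA)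
    have evB := ((hXsum.const_smul M).add hzlim).eventually (hP.isOpen.mem_nhds hB)
    obtain ⟨m0, hm0⟩ := Filter.eventually_atTop.1 (evA.and evB)
    have hcA : ∀ m, m0 ≤ m → ∀ i, M • (X m i + X m (τ i)) - (y m i + y m (τ i)) ∈ closure C := by
      intro m hm i
      have h1 := (DX m).2.2 (fun i => M • X m i - y m i)
        (fun i => Submodule.sub_mem _ (Submodule.smul_mem _ _ ((DX m).1 i)) (hyX m i)) (by
          rw [Finset.sum_sub_distrib, ← Finset.smul_sum, hysum]
          exact subset_closure (hm0 m hm).1) i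
      have e : M • (X m i + X m (τ i)) - (y m i + y m (τ i)) =
          (M • X m i - y m i) + (M • X m (τ i) - y m (τ i)) := by
        rw [smul_add]; abel
      rw [e]
      exact h1
    have hcB : ∀ m, m0 ≤ m → ∀ i, M • (X m i + X m (τ i)) + (y m i + y m (τ i)) ∈ closure C := by
      intro m hm i
      have h1 := (DX m).2.2 (fun i => M • X m i + y m i)
        (fun i => Submodule.add_mem _ (Submodule.smul_mem _ _ ((DX m).1 i)) (hyX m i)) (by
          rw [Finset.sum_add_distrib, ← Finset.smul_sum, hysum]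
          exact subset_closure (hm0 m hm).2) i
      have e : M • (X m i + X m (τ i)) + (y m i + y m (τ i)) =
          (M • X m i + y m i) + (M • X m (τ i) + y m (τ i)) := by
        rw [smul_add]; abel
      rw [e]
      exact h1
    obtain ⟨B, hBpos, hnorm⟩ := hP.normal
    obtain ⟨R, hR0, hR⟩ : ∃ R : ℝ, 0 ≤ R ∧ ∀ m i, ‖X m i + X m (τ i)‖ ≤ R := by
      have h1 : ∀ i, ∃ R : ℝ, ∀ m, ‖X m i + X m (τ i)‖ ≤ R := by
        intro i
        obtain ⟨R, hR⟩ := ((hXlim i).add (hXlim (τ i))).norm.bddAbove_range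
        exact ⟨R, fun m => hR ⟨m, rfl⟩⟩
      choose R hR using h1
      refine ⟨∑ i, |R i|, Finset.sum_nonneg fun i _ => abs_nonneg _, fun m i => ?_⟩
      exact ((hR i m).trans (le_abs_self _)).trans
        (Finset.single_le_sum (f := fun i => |R i|) (fun b _ => abs_nonneg _)
          (Finset.mem_univ i))
    have hyb : ∀ m, m0 ≤ m → ∀ i, ‖y m i + y m (τ i)‖ ≤ M * R + B * (2 * M * R) := by
      intro m hm i
      have h1 := hnorm (M • (X m i + X m (τ i)) - (y m i + y m (τ i)))
        ((2 * M) • (X m i + X m (τ i))) (hcA m hm i) (by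
          have e : (2 * M) • (X m i + X m (τ i)) -
              (M • (X m i + X m (τ i)) - (y m i + y m (τ i))) =
              M • (X m i + X m (τ i)) + (y m i + y m (τ i)) := by
            rw [two_mul, add_smul]; abel
          rw [e]
          exact hcB m hm i)
      have h2 : ‖y m i + y m (τ i)‖ ≤ ‖M • (X m i + X m (τ i))‖ +
          ‖M • (X m i + X m (τ i)) - (y m i + y m (τ i))‖ := by
        have e : y m i + y m (τ i) = M • (X m i + X m (τ i)) -
            (M • (X m i + X m (τ i)) - (y m i + y m (τ i))) := by abel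
        calc ‖y m i + y m (τ i)‖ = ‖M • (X m i + X m (τ i)) -
            (M • (X m i + X m (τ i)) - (y m i + y m (τ i)))‖ := by rw [← e]
          _ ≤ _ := norm_sub_le _ _
      have h3 : ‖M • (X m i + X m (τ i))‖ ≤ M * R := by
        rw [norm_smul, Real.norm_of_nonneg hMpos.le]
        exact mul_le_mul_of_nonneg_left (hR m i) hMpos.le
      have h4 : ‖(2 * M) • (X m i + X m (τ i))‖ ≤ 2 * M * R := by
        rw [norm_smul, Real.norm_of_nonneg (by positivity)]
        exact mul_le_mul_of_nonneg_left (hR m i) (by positivity)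
      calc ‖y m i + y m (τ i)‖ ≤ ‖M • (X m i + X m (τ i))‖ +
          ‖M • (X m i + X m (τ i)) - (y m i + y m (τ i))‖ := h2
        _ ≤ M * R + B * ‖(2 * M) • (X m i + X m (τ i))‖ := add_le_add h3 h1
        _ ≤ M * R + B * (2 * M * R) := by
          have := mul_le_mul_of_nonneg_left h4 hBpos.le
          linarith
    obtain ⟨u, -, θ, hθ, hu⟩ := tendsto_subseq_of_bounded
      (Metric.isBounded_closedBall (x := (0 : Fin K → V n)) (r := M * R + B * (2 * M * R)))
      (x := fun m i => y (m + m0) i + y (m + m0) (τ i))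
      (fun m => mem_closedBall_zero_iff.2 ((pi_norm_le_iff_of_nonneg (by positivity)).2
        fun i => hyb (m + m0) (Nat.le_add_left _ _) i))
    have hχ : StrictMono (fun m => θ m + m0) := fun a b hab => Nat.add_lt_add_right (hθ hab) m0
    have hui : ∀ i, Tendsto (fun m => y (θ m + m0) i + y (θ m + m0) (τ i)) atTop (𝓝 (u i)) :=
      fun i => (tendsto_pi_nhds.1 hu) i
    have huL : ∀ i, u i ∈ Lf C τ w i := by
      intro i
      refine (hLf i).2 (fun m => φ' (θ m + m0))
        (fun m => y (θ m + m0) i + y (θ m + m0) (τ i)) (u i) (hφ'.comp hχ) (fun m => ?_) (hui i)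
      refine Submodule.add_mem _ (hyL (θ m + m0) i) ?_
      have e := (Dx (φ (φ' (θ m + m0)))).2.1 i
      have h2 := hyL (θ m + m0) (τ i)
      rw [e] at h2
      exact h2
    have hτ : ∀ f : Fin K → V n, ∑ i, f (τ i) = ∑ i, f i := fun f =>
      Equiv.sum_comp ⟨τ, τ, D.inv, D.inv⟩ f
    have hus : ∑ i, u i = (2 : ℝ) • z := by
      have t1 : Tendsto (fun m => ∑ i, (y (θ m + m0) i + y (θ m + m0) (τ i))) atTop
          (𝓝 (∑ i, u i)) := tendsto_finsetSum _ fun i _ => hui i
      have t2 : Tendsto (fun m => ∑ i, (y (θ m + m0) i + y (θ m + m0) (τ i))) atTop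
          (𝓝 ((2 : ℝ) • z)) := by
        have := (hzlim.comp hχ.tendsto_atTop).const_smul (2 : ℝ)
        refine this.congr fun m => ?_
        show (2 : ℝ) • zm (θ m + m0) = _
        rw [Finset.sum_add_distrib, hτ (fun i => y (θ m + m0) i), hysum, two_smul]
      exact tendsto_nhds_unique t1 t2
    have hz2 : z = (1 / 2 : ℝ) • ∑ i, u i := by
      rw [hus, smul_smul]
      norm_num
    rw [hz2]
    exact Submodule.smul_mem _ _
      (Submodule.sum_mem _ fun i _ => Submodule.mem_iSup_of_mem i (huL i))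

end Pool.Agent.NTW.H65
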