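import Pool.Agent.NTW.StmtsD

/-! NTW squad (MP_e54c4c_gt), row ZBW: the zoom property (helper65). -/

set_option autoImplicit false

open Matrix Filter Topology

namespace Pool.Agent.NTW.H65

open Pool.Agent.PFS Pool.Agent.PFJ Pool.Agent.NTS Pool.Agent.NTW

/-- pigeonhole for a sequence with values in a finite type -/
theorem exists_const_subseq {α : Type} [Finite α] (f : ℕ → α) :
    ∃ (a : α) (ψ : ℕ → ℕ), StrictMono ψ ∧ ∀ m, f (ψ m) = a := by
  obtain ⟨a, ha⟩ := Finite.exists_infinite_fiber f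
  have h1 : Set.Infinite {m | f m = a} := Set.infinite_coe_iff.1 ha
  have h2 : ∃ᶠ m in atTop, f m = a := Nat.frequently_atTop_iff_infinite.2 h1
  obtain ⟨ψ, hψ, h⟩ := extraction_of_frequently_atTop h2
  exact ⟨a, ψ, hψ, h⟩

/-- the vertices are in their factors -/
theorem mem_Lf {n K : ℕ} {C : Set (V n)} {Γ : Subgroup (GL (Fin n) ℝ)}
    {c : Fin K → Fin K → ℕ} {τ : Fin K → Fin K} {w : Fin K → V n}
    (hpb : ∀ i j, i ≠ j → PB C w i j (Fs C (w i) (w j))) (i : Fin K) : w i ∈ Lf C τ w i := by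
  unfold Lf
  by_cases h : τ i = i
  · rw [if_pos h]
    exact Submodule.mem_span_singleton_self _
  · rw [if_neg h]
    exact (hpb i (τ i) (Ne.symm h)).left

/-- ZBW -/
theorem zbw (hPAC : PacStmt) (hFSR : FsrStmt) (hTBX : TbxStmt) (hALW : AlwStmt) (hWLM : WlmStmt)
    (hSTW : StwStmt) : ZbwStmt := by
  intro n C Γ K c τ D hN w hw r hr
  have h : CC C Γ := D.toCC
  have hP : PCone C := h.toPCone
  have hK := D.three
  obtain ⟨φ, g, s, p, hφ, hg, hs, hW, hp, hlim⟩ :=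
    hSTW n C Γ K c τ D hN w hw (fun m i => Real.log (r m i))
  have hwcl : ∀ i, w i ∈ closure C := fun i => PES.cl hw.pes.1 i
  obtain ⟨X, hX⟩ : ∃ X : ℕ → Fin K → V n,
    X = fun m i => s m • act (g m) (r (φ m) i • w i) := ⟨_, rfl⟩
  have hXTT : ∀ m, TT C Γ c (X m) := by
    intro m
    rw [hX]
    exact (hTBX n C Γ K c τ D _ ((hTBX n C Γ K c τ D w hw).2.1 (r (φ m)) (hr (φ m)))).2.2.1
      (g m) (hg m) (s m) (hs m)
  have hsum : ∀ m, ∑ i, X m i = s m • act (g m) (xt w (fun i => Real.log (r (φ m) i))) := by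
    intro m
    have e : xt w (fun i => Real.log (r (φ m) i)) = ∑ i, r (φ m) i • w i := by
      unfold xt
      exact Finset.sum_congr rfl fun i _ => by rw [Real.exp_log (hr (φ m) i)]
    rw [e, CC.act_sum, Finset.smul_sum, hX]
  have hsl : Tendsto (fun m => ∑ i, X m i) atTop (𝓝 p) := by
    refine hlim.congr fun m => ?_
    rw [hsum]
  obtain ⟨φ1, v, hφ1, hv1, hvsum, hvpes⟩ := Pool.Agent.PFS.H37.lpsF n C Γ h (Fin K)
    (by rw [Fintype.card_fin]; omega) X p (fun m => (hXTT m).pes) hp hsl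
  obtain ⟨hv, φ2, hφ2, hLf, hWs⟩ := hWLM n C Γ K c τ D (fun m => X (φ1 m)) v
    (fun m => hXTT (φ1 m)) hv1 hvpes
  -- the factors of `X m`
  have hXLf : ∀ m i, Lf C τ (X m) i = img (g m) (Lf C τ w i) := by
    intro m i
    have h1 := ((hPAC n C Γ h (g m) (hg m) (s m) (hs m)).2.2 K τ (fun i => r (φ m) i • w i)).1 i
    rw [hX]
    show Lf C τ (fun i => s m • act (g m) (r (φ m) i • w i)) i = _
    rw [h1, (hFSR n C hP K τ w (r (φ m)) hwcl (hr (φ m))).2.1 i]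
  have hXWs : ∀ m, Ws C τ (X m) = Ws C τ w := by
    intro m
    have h1 := ((hPAC n C Γ h (g m) (hg m) (s m) (hs m)).2.2 K τ (fun i => r (φ m) i • w i)).2
    rw [hX]
    show Ws C τ (fun i => s m • act (g m) (r (φ m) i • w i)) = _
    rw [h1, (hFSR n C hP K τ w (r (φ m)) hwcl (hr (φ m))).2.2, hW m]
  have hXmem : ∀ m i, X m i ∈ Ws C τ w := by
    intro m i
    rw [← hXWs m]
    exact Submodule.mem_iSup_of_mem i
      (mem_Lf (Γ := Γ) (c := c) (hTBX n C Γ K c τ D (X m) (hXTT m)).1 i)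
  have hperm : ∀ m, ∃ π : Equiv.Perm (Fin K), ∀ i, Lf C τ (X m) (π i) = Lf C τ w i := by
    intro m
    obtain ⟨-, π, -, hπ⟩ := hALW n C Γ K c τ D (X m) w (hXTT m) hw (hXmem m)
    exact ⟨π, hπ⟩
  choose π hπ using hperm
  obtain ⟨π0, ψ, hψ, hπ0⟩ := exists_const_subseq (fun m => π (φ1 (φ2 m)))
  have hconst : ∀ m i, Lf C τ (X (φ1 (φ2 (ψ m)))) i = Lf C τ w (π0.symm i) := by
    intro m i
    have h1 := hπ (φ1 (φ2 (ψ m))) (π0.symm i)
    have h2 : π (φ1 (φ2 (ψ m))) = π0 := hπ0 m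
    rw [h2, Equiv.apply_symm_apply] at h1
    exact h1
  have hlsf := Pool.Agent.PFJ.H10.lsf n
  have hLfv : ∀ i, Lf C τ v i = Lf C τ w (π0.symm i) := by
    intro i
    have h1 : LimS (fun m => Lf C τ (X (φ1 (φ2 (ψ m)))) i) (Lf C τ v i) :=
      hlsf.1 (fun m => Lf C τ (X (φ1 (φ2 m))) i) (Lf C τ v i) ψ (hLf i) hψ
    have h2 : (fun m => Lf C τ (X (φ1 (φ2 (ψ m)))) i) = fun _ => Lf C τ w (π0.symm i) := by
      funext m
      exact hconst m i
    rw [h2] at h1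
    exact hlsf.2.2.1 _ _ _ h1 (hlsf.2.2.2.1 _)
  refine ⟨fun m => φ (φ1 (φ2 (ψ m))), fun m => g (φ1 (φ2 (ψ m))), fun m => s (φ1 (φ2 (ψ m))), v,
    ?_, fun m => hg _, fun m => hs _, hv, ?_, ?_⟩
  · exact hφ.comp (hφ1.comp (hφ2.comp hψ))
  · intro i
    have h1 : Tendsto (fun m => X (φ1 (φ2 (ψ m))) i) atTop (𝓝 (v i)) :=
      (hv1 i).comp (hφ2.comp hψ).tendsto_atTop
    rw [hX] at h1
    exact h1
  · intro m i
    show img (g (φ1 (φ2 (ψ m)))) (Lf C τ w i) = Lf C τ v i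
    rw [← hXLf, hconst m i, hLfv i]

end Pool.Agent.NTW.H65
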